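import Pool.Agent.Helper20.EQ.St1
import Pool.Agent.Helper79.LM.M_PL

set_option autoImplicit false

/-! Project EQ, module DFZ (written by helper62). -/

open MeasureTheory Set Filter Topology
open scoped ENNReal RealInnerProductSpace

namespace Pool.Agent.Helper62.EQ

open Pool.Agent.Helper20.RG Pool.Agent.Helper20.EQ
open Pool.Agent.Helper68.LM (Pl BB Bd Av HL ft fm DQ)

theorem Psi_meas (s : ℝ) (m m' V : ℕ) (k : ℤ) :
    Measurable fun ξ : Pl => Psi s m m' V ((2 : ℝ) ^ k • ξ) := by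
  unfold Psi
  fun_prop

theorem hDFZ (hMXJ : StMXJ) (hOCN : StOCN) : StDFZ := by
  intro C₀ hC₀
  obtain ⟨C₁, hC₁, h1⟩ := hMXJ
  obtain ⟨C₂, hC₂, h2⟩ := hOCN C₀ hC₀
  refine ⟨C₁ * C₂, by positivity, ?_⟩
  intro u s c m m' R K A σ hS hA w T g hg hT
  obtain ⟨hftm, hPl⟩ := Pool.Agent.Helper79.LM.hPL g hg
  obtain ⟨B, hB⟩ : ∃ B : ℝ, B = T + u + 1 + (w + 1) *
    (1 + (2 : ℝ) ^ u * (A * (T : ℝ) ^ (-(1 / σ)))) := ⟨_, rfl⟩
  rw [← hB]
  have hB0 : 0 ≤ B := by rw [hB]; positivity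
  have hm : ∀ (k : ℤ) (j : ℕ), Measurable fun ξ : Pl =>
      ENNReal.ofReal (C₁ * Psi (s j) (m j) (m' j) w ((2 : ℝ) ^ k • ξ)) * ‖ft g ξ‖ₑ ^ 2 :=
    fun k j => ((measurable_const.mul (Psi_meas _ _ _ _ k)).ennreal_ofReal).mul
      (hftm.enorm.pow_const 2)
  calc ∑' k : ℤ, ∑ j ∈ Finset.range (2 ^ u), ∫⁻ x, MD (s j) (c j) (m j) (m' j) w k g x ^ 2
      ≤ ∑' k : ℤ, ∑ j ∈ Finset.range (2 ^ u), ∫⁻ ξ,
          ENNReal.ofReal (C₁ * Psi (s j) (m j) (m' j) w ((2 : ℝ) ^ k • ξ)) * ‖ft g ξ‖ₑ ^ 2 := by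
        apply ENNReal.tsum_le_tsum
        intro k
        apply Finset.sum_le_sum
        intro j hj
        have hj' := Finset.mem_range.1 hj
        exact h1 (s j) (c j) (m j) (m' j) w k g (hS.slope j hj') (hS.mm j hj').1 hg
    _ = ∫⁻ ξ, ∑' k : ℤ, ∑ j ∈ Finset.range (2 ^ u),
          ENNReal.ofReal (C₁ * Psi (s j) (m j) (m' j) w ((2 : ℝ) ^ k • ξ)) * ‖ft g ξ‖ₑ ^ 2 := by
        rw [lintegral_tsum]
        · apply tsum_congr
          intro k
          rw [lintegral_finsetSum]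
          intro j _
          exact hm k j
        · intro k
          exact (Finset.measurable_fun_sum _ fun j _ => hm k j).aemeasurable
    _ ≤ ∫⁻ ξ, ENNReal.ofReal (C₁ * C₂ * B) * ‖ft g ξ‖ₑ ^ 2 := by
        have hae : ∀ᵐ ξ : Pl, ξ ≠ 0 := by
          rw [ae_iff]
          simp
        apply lintegral_mono_ae
        filter_upwards [hae] with ξ hξ
        have h3 : ∑' k : ℤ, ∑ j ∈ Finset.range (2 ^ u),
            ENNReal.ofReal (C₁ * Psi (s j) (m j) (m' j) w ((2 : ℝ) ^ k • ξ)) * ‖ft g ξ‖ₑ ^ 2 =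
            ENNReal.ofReal C₁ * (∑' k : ℤ, ∑ j ∈ Finset.range (2 ^ u),
              ENNReal.ofReal (Psi (s j) (m j) (m' j) w ((2 : ℝ) ^ k • ξ))) * ‖ft g ξ‖ₑ ^ 2 := by
          rw [← ENNReal.tsum_mul_left, ← ENNReal.tsum_mul_right]
          apply tsum_congr
          intro k
          rw [Finset.mul_sum, Finset.sum_mul]
          apply Finset.sum_congr rfl
          intro j _
          rw [ENNReal.ofReal_mul hC₁.le]
        rw [h3, mul_assoc C₁ C₂ B, ENNReal.ofReal_mul hC₁.le]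
        gcongr
        refine (h2 u s c m m' R K A σ hS (fun _ => w) T ξ hξ).trans ?_
        apply ENNReal.ofReal_le_ofReal
        gcongr
        rw [hB, Finset.sum_const, nsmul_eq_mul]
        have h4 : (({j ∈ Finset.range (2 ^ u) | |s j - th ξ| ≤ (2 : ℝ) ^ (-(T : ℤ))}).card : ℝ) ≤
            1 + (2 : ℝ) ^ u * (A * (T : ℝ) ^ (-(1 / σ))) := by
          have h5 := hS.sep (th ξ) T hT
          have h6 : {j : ℕ | j < 2 ^ u ∧ |s j - th ξ| ≤ (2 : ℝ) ^ (-(T : ℤ))} =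
              (({j ∈ Finset.range (2 ^ u) | |s j - th ξ| ≤ (2 : ℝ) ^ (-(T : ℤ))} : Finset ℕ) :
                Set ℕ) := by
            ext j
            simp
          rw [h6, Set.ncard_coe_finset] at h5
          exact h5
        have h7 : (0 : ℝ) ≤ (w : ℝ) + 1 := by positivity
        nlinarith [mul_le_mul_of_nonneg_right h4 h7]
    _ = ENNReal.ofReal (C₁ * C₂ * B) * ∫⁻ x, ‖g x‖ₑ ^ 2 := by
        rw [lintegral_const_mul' _ _ ENNReal.ofReal_ne_top, hPl]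

end Pool.Agent.Helper62.EQ
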